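import Pool.Agent.Helper29_TDG.Stmts
import Pool.Agent.Helper53_TDG.Comp

/-!
# TDG, modules DR and DZ: drops in terms of subsets of a maximal optimal set
-/

set_option autoImplicit false

namespace Pool.Agent.TDG.H88

open Finset Helper77.TDG
open Pool.Agent.TDG

/-- A maximiser of `f` above `Z`, exchanged with `A`. -/
theorem dzAux (hELA : ELAStmt) (V X : Type) [Fintype V] [DecidableEq V] [DecidableEq X]
    (N : V → Finset X) (Hv U A Z : Finset X) (hW : World N Hv) (hA : MaxOpt N Hv U A)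
    (hZ : Z ⊆ U \ Hv) :
    ∃ T, Z ⊆ T ∧ MM N Hv (U \ Z) + (J N U Z).card +
      2 * ((hitc N Hv U A T (T ∩ A)).card : ℤ) ≤ sf N Hv U (T ∩ A) + Gam N Hv U := by
  classical
  have hne : ((U \ Hv).powerset.filter fun T => Z ⊆ T).Nonempty :=
    ⟨Z, mem_filter.2 ⟨mem_powerset.2 hZ, Subset.refl _⟩⟩
  obtain ⟨T, hT, hmax⟩ := exists_max_image _ (fun T => sf N Hv U T) hne
  rw [mem_filter, mem_powerset] at hT
  obtain ⟨R', hTR, hR', hle⟩ := hELA V X N Hv U A T hW hA hT.1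
  refine ⟨T, hT.2, ?_⟩
  have h1 := MM_sdiff_le (N := N) (Hv := Hv) (U := U) (S := T) hZ hR' (hT.2.trans hTR)
    (fun S hS hZS => hmax S (mem_filter.2 ⟨mem_powerset.2 hS, hZS⟩))
  linarith

theorem dz (hELA : ELAStmt) : DZStmt := by
  intro V X _ _ _ N Hv U A Z hW hA hZ
  obtain ⟨T, hT, h⟩ := dzAux hELA V X N Hv U A Z hW hA hZ
  refine ⟨T ∩ A, inter_subset_right, inter_subset_inter_right hT, ?_⟩
  have : (0 : ℤ) ≤ ((hitc N Hv U A T (T ∩ A)).card : ℤ) := by positivity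
  linarith

theorem dr (hELA : ELAStmt) : DRStmt := by
  classical
  intro V X _ _ _ N Hv U A v hW ih hA hv hvH
  obtain ⟨T, hT, h⟩ := dzAux hELA V X N Hv U A (N v ∩ U) hW hA hvH
  have hU : U \ N v = U \ (N v ∩ U) := by
    ext x
    simp only [mem_sdiff, mem_inter]
    tauto
  have hlt : U \ N v ⊂ U := by
    refine (ssubset_iff_of_subset sdiff_subset).2 ?_
    obtain ⟨x, hx⟩ := hv
    rw [mem_inter] at hx
    exact ⟨x, hx.2, fun h' => (mem_sdiff.1 h').2 hx.1⟩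
  have hns := ih _ hlt
  rw [hU] at hns
  have hAU : A ⊆ U := hA.1.trans sdiff_subset
  have h0 : (0 : ℤ) ≤ ((hitc N Hv U A T (T ∩ A)).card : ℤ) := by positivity
  rw [hU]
  refine ⟨T ∩ A, inter_subset_right, ?_, by linarith, ?_⟩
  · intro x hx
    rw [mem_inter] at hx
    exact mem_inter.2 ⟨hT (mem_inter.2 ⟨hx.1, hAU hx.2⟩), hx.2⟩
  · intro C hC hvC htok
    have hmem : C ∈ hitc N Hv U A T (T ∩ A) := by
      unfold hitc
      rw [mem_filter]
      refine ⟨hC, ?_, htok⟩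
      obtain ⟨x, hx⟩ := hvC
      rw [mem_inter] at hx
      have hxU : x ∈ U := (mem_sdiff.1 ((mem_bc.1 hC).1.1 hx.2)).1
      exact ⟨x, mem_inter.2 ⟨hT (mem_inter.2 ⟨hx.1, hxU⟩), hx.2⟩⟩
    have h1 : 1 ≤ (hitc N Hv U A T (T ∩ A)).card := card_pos.2 ⟨C, hmem⟩
    have h2 : (1 : ℤ) ≤ ((hitc N Hv U A T (T ∩ A)).card : ℤ) := by exact_mod_cast h1
    linarith

end Pool.Agent.TDG.H88
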